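import Pool.Agent.Q181.LG.Stm

set_option autoImplicit false
set_option linter.unusedSectionVars false

/-!
# The gap law: generalised inverses, and the inequality for the adjoint
-/

namespace Pool.Agent.Q190.LG

open Matrix TH57.Thr TH6.LF
open Pool.Agent.Q181.LW (LB TriData)
open Pool.Agent.Q181.LG

theorem t_gi : S_gi := by
  intro G _ ι κ _ _ A
  constructor
  · rintro K ⟨Y, hY, hK⟩ x ε hε
    refine ⟨x - (x ᵥ* toReal A) ᵥ* toReal Y, ?_, ?_⟩
    · have h1 : (x - (x ᵥ* toReal A) ᵥ* toReal Y) ᵥ* toReal A = 0 := by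
        rw [Matrix.sub_vecMul, Matrix.vecMul_vecMul, Matrix.vecMul_vecMul, ← Matrix.mul_assoc,
          ← toReal_mul, ← toReal_mul, hY, sub_self]
      have h2 : normSq (0 : κ → MonoidAlgebra ℝ G) = 0 := by
        rw [← ip_self, ip_zero_left]
      rw [h1, h2]
      exact hε.le
    · rw [sub_sub_cancel]
      have h3 := hK (x ᵥ* toReal A)
      linarith
  · intro D hD x ε hε
    refine ⟨0, ?_, ?_⟩
    · have h2 : normSq (0 : κ → MonoidAlgebra ℝ G) = 0 := by
        rw [← ip_self, ip_zero_left]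
      rw [Matrix.zero_vecMul, h2]
      exact hε.le
    · rw [sub_zero]
      have h3 := hD x
      linarith

theorem t_g1 : S_g1 := by
  intro G _ ι κ _ _ A D hD hA x
  set a := normSq (x ᵥ* toReal A) with ha
  set b := normSq ((x ᵥ* toReal A) ᵥ* toReal (adj A)) with hb
  have ha0 : 0 ≤ a := normSq_nonneg _
  have hb0 : 0 ≤ b := normSq_nonneg _
  have key : ∀ t : ℝ, 0 < t → 2 * a ≤ t * (D * a) + t⁻¹ * b := by
    intro t ht
    refine le_of_forall_pos_le_add fun δ hδ => ?_
    have hs : 0 < 2 * (a + 1) / δ := by positivity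
    set s := 2 * (a + 1) / δ with hsd
    have hε : 0 < δ / (2 * (t + s)) := by positivity
    obtain ⟨x', h1, h2⟩ := hA x _ hε
    have e1 : a = ip (x - x') ((x ᵥ* toReal A) ᵥ* toReal (adj A)) +
        ip (x' ᵥ* toReal A) (x ᵥ* toReal A) := by
      rw [ip_vecMul x', toReal_adj, ← ip_add_left, sub_add_cancel, ← ip_vecMul, ip_self]
    have e2 := two_ip_le (x - x') ((x ᵥ* toReal A) ᵥ* toReal (adj A)) t ht
    have e3 := two_ip_le (x' ᵥ* toReal A) (x ᵥ* toReal A) s hs
    rw [← hb] at e2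
    rw [← ha] at e3
    have e4 := le_abs_self (ip (x - x') ((x ᵥ* toReal A) ᵥ* toReal (adj A)))
    have e5 := le_abs_self (ip (x' ᵥ* toReal A) (x ᵥ* toReal A))
    have e6 : t * normSq (x - x') ≤ t * (D * a) + t * (δ / (2 * (t + s))) := by
      rw [← mul_add]
      exact mul_le_mul_of_nonneg_left h2 ht.le
    have e7 : s * normSq (x' ᵥ* toReal A) ≤ s * (δ / (2 * (t + s))) :=
      mul_le_mul_of_nonneg_left h1 hs.le
    have e8 : t * (δ / (2 * (t + s))) + s * (δ / (2 * (t + s))) = δ / 2 := by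
      field_simp
    have e9 : s⁻¹ * a ≤ δ / 2 := by
      have e10 : s⁻¹ = δ / (2 * (a + 1)) := by
        rw [hsd, inv_div]
      rw [e10, div_mul_eq_mul_div, div_le_div_iff₀ (by positivity) (by norm_num)]
      nlinarith
    linarith
  rcases hD.eq_or_lt with h0 | h0
  · rw [← h0, zero_mul]
    by_contra hc
    push Not at hc
    have h1 := key (b / a + 1) (by positivity)
    rw [← h0, zero_mul, mul_zero, zero_add] at h1
    have h2 : (b / a + 1)⁻¹ * b ≤ a := by
      rw [inv_mul_le_iff₀ (by positivity), add_mul, div_mul_cancel₀ _ hc.ne']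
      linarith
    linarith
  · have h1 := key D⁻¹ (inv_pos.2 h0)
    rw [inv_inv, ← mul_assoc, inv_mul_cancel₀ h0.ne', one_mul] at h1
    linarith

end Pool.Agent.Q190.LG
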